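import Pool.Agent.H28.MZ.Targets
import Pool.Agent.H74.PP.Targets
import Pool.Agent.H74.PP.Ordinates
import Pool.Agent.H74.LI.Defs

/-!
# One third of the sums of two sets of zeros are not zeros: definitions
-/

set_option autoImplicit false

open Complex MeasureTheory Set

namespace Pool.Agent.H88.OT

open Pool.Agent.H23.GLH (PrimChar)
open Pool.Agent.H28.MZ (ei co Bf V W SS DS Sy PP Mol dv)

/-! ### Clouds of points -/

/-- a finite family of real points with non-negative weights -/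
structure Cloud where
  /-- the index type -/
  ι : Type
  /-- the indices -/
  I : Finset ι
  /-- the points -/
  x : ι → ℝ
  /-- the weights -/
  w : ι → ℝ
  nn : ∀ i, 0 ≤ w i

/-- the total mass -/
noncomputable def Cloud.m (A : Cloud) : ℝ := ∑ i ∈ A.I, A.w i

/-- the exponential sum `∑ w_i e^{i x_i y}` -/
noncomputable def Cloud.E (A : Cloud) (y : ℝ) : ℂ := ∑ i ∈ A.I, (A.w i : ℂ) * ei (A.x i * y)

open scoped Classical in
/-- the points are in `[-T, T]` and every interval `[v, v + 1]` has mass at most `μ` -/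
structure Cloud.Sp (A : Cloud) (T μ : ℝ) : Prop where
  le : ∀ i ∈ A.I, |A.x i| ≤ T
  loc : ∀ v : ℝ, ∑ i ∈ A.I.filter (fun i => v ≤ A.x i ∧ A.x i ≤ v + 1), A.w i ≤ μ

/-- `∑_{i,j} w_i w_j φ(x_i + y_j)`, complex values -/
noncomputable def Sm (A B : Cloud) (φ : ℝ → ℂ) : ℂ :=
  ∑ i ∈ A.I, ∑ j ∈ B.I, ((A.w i * B.w j : ℝ) : ℂ) * φ (A.x i + B.x j)

/-- `∑_{i,j} w_i w_j φ(x_i + y_j)`, real values -/
noncomputable def SR (A B : Cloud) (φ : ℝ → ℝ) : ℝ :=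
  ∑ i ∈ A.I, ∑ j ∈ B.I, A.w i * B.w j * φ (A.x i + B.x j)

open scoped Classical in
/-- the mass of the pairs with `P (x_i + y_j)` -/
noncomputable def PS (A B : Cloud) (P : ℝ → Prop) : ℝ :=
  ∑ i ∈ A.I, ∑ j ∈ B.I, if P (A.x i + B.x j) then A.w i * B.w j else 0

/-- the local mean of `|A^| |B^|` at the frequency `z` and at the scale `1/u` -/
noncomputable def KK (A B : Cloud) (u z : ℝ) : ℝ :=
  ∫ ξ : ℝ, u / (1 + u * |ξ|) ^ 2 * (‖A.E (z + ξ)‖ * ‖B.E (z + ξ)‖)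

/-- `(μ ν m(A) m(B))^{1/2}` -/
noncomputable def Lam (A B : Cloud) (μ ν : ℝ) : ℝ := Real.sqrt (μ * ν * (A.m * B.m))

/-! ### The weights in `t` -/

/-- the Gamma weight on the positive axis -/
noncomputable def Wt (N : ℕ) (u t : ℝ) : ℝ := if 0 < t then W N u t else 0

/-- the Gamma weight times `log (t/u)` -/
noncomputable def Wl (N : ℕ) (u t : ℝ) : ℝ := if 0 < t then W N u t * Real.log (t / u) else 0

/-- the Gamma weight times `V(κ/t²)` -/
noncomputable def Wv (N : ℕ) (u κ t : ℝ) : ℝ := if 0 < t then W N u t * V (κ / t ^ 2) else 0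

/-! ### Selberg's weights -/

open scoped Classical in
/-- the squarefree `d ≤ Y` prime to `q` -/
noncomputable def SF (q Y : ℕ) : Finset ℕ :=
  (Finset.Icc 1 Y).filter fun d => Squarefree d ∧ Nat.Coprime d q

/-- `G = ∑ 1/φ(d)` -/
noncomputable def fG (q Y : ℕ) : ℝ := ∑ d ∈ SF q Y, 1 / (Nat.totient d : ℝ)

open scoped Classical in
/-- `y(d) = μ(d)/(φ(d) G)` -/
noncomputable def fy (q Y d : ℕ) : ℝ :=
  if d ∈ SF q Y then (ArithmeticFunction.moebius d : ℝ) / ((Nat.totient d : ℝ) * fG q Y) else 0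

open scoped Classical in
/-- `b(h) = h ∑_{h ∣ d} μ(d/h) y(d)` -/
noncomputable def fb (q Y h : ℕ) : ℝ :=
  (h : ℝ) * ∑ d ∈ (SF q Y).filter (fun d => h ∣ d),
    (ArithmeticFunction.moebius (d / h) : ℝ) * fy q Y d

open scoped Classical in
/-- `P(e) = ∑_{p ≤ Y/e, p ∤ e q} log p/(p - 1)` -/
noncomputable def fP (q Y e : ℕ) : ℝ :=
  ∑ p ∈ (Finset.Icc 1 (Y / e)).filter (fun p => p.Prime ∧ ¬ p ∣ e ∧ ¬ p ∣ q),
    Real.log p / ((p : ℝ) - 1)

/-- `λ(n) = ∑_{p ∣ n} log p/(p - 1)` -/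
noncomputable def la (n : ℕ) : ℝ := ∑ p ∈ n.primeFactors, Real.log p / ((p : ℝ) - 1)

/-- `∑ b(h) b(k) (ah, bk)/(hk)` -/
noncomputable def Q1 (q Y a b : ℕ) : ℝ :=
  ∑ h ∈ Finset.Icc 1 Y, ∑ k ∈ Finset.Icc 1 Y,
    fb q Y h * fb q Y k * ((Nat.gcd (h * a) (k * b) : ℝ) / ((h : ℝ) * k))

/-- `∑ b(h) b(k) (ah, bk)/(hk) log (ahbk/(ah,bk)²)` -/
noncomputable def Q2 (q Y a b : ℕ) : ℝ :=
  ∑ h ∈ Finset.Icc 1 Y, ∑ k ∈ Finset.Icc 1 Y,
    fb q Y h * fb q Y k * ((Nat.gcd (h * a) (k * b) : ℝ) / ((h : ℝ) * k)) *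
      Real.log (PP (h * a) (k * b))

/-! ### The second moment -/

open scoped Classical in
/-- coprime pairs `(a, b)`, prime to `q`, with `a b ≤ Z` -/
noncomputable def FP (q Z : ℕ) : Finset (ℕ × ℕ) :=
  ((Finset.Icc 1 Z) ×ˢ (Finset.Icc 1 Z)).filter fun p =>
    Nat.Coprime p.1 p.2 ∧ p.1 * p.2 ≤ Z ∧ Nat.Coprime (p.1 * p.2) q

/-- the part of frequency `a/b` of `|L|² |B|²` -/
noncomputable def Rr (π : PrimChar) (Y : ℕ) (u : ℝ) (a b : ℕ) (t : ℝ) : ℂ :=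
  ∑ h ∈ Finset.Icc 1 Y, ∑ k ∈ Finset.Icc 1 Y,
    ((fb π.q Y h * fb π.q Y k * ((h : ℝ) * k) ^ (-(1 / 2 : ℝ)) : ℝ) : ℂ) *
      (co π h * (starRingEnd ℂ) (co π k)) *
        (DS π (h * a) (k * b) (1 / 2) (1 / u) +
          DS π (h * a) (k * b) (1 / 2) (4 * Real.pi ^ 2 * u / (π.q * t) ^ 2))

/-- the product `a b` of the reduced fraction `a/b = nk/(mh)` -/
def rd (m n h k : ℕ) : ℕ := (n * k) / Nat.gcd (n * k) (m * h) * ((m * h) / Nat.gcd (n * k) (m * h))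

open scoped Classical in
/-- the part of the high frequencies of `|L|² |B|²` -/
noncomputable def Hh (π : PrimChar) (Y Z : ℕ) (u t : ℝ) : ℂ :=
  ∑ h ∈ Finset.Icc 1 Y, ∑ k ∈ Finset.Icc 1 Y,
    ((fb π.q Y h * fb π.q Y k * ((h : ℝ) * k) ^ (-(1 / 2 : ℝ)) : ℝ) : ℂ) *
      (co π h * (starRingEnd ℂ) (co π k)) *
        ∑' p : ℕ × ℕ, if Z < rd p.1 p.2 h k then
          co π p.1 * (starRingEnd ℂ) (co π p.2) *
            (((((p.1 : ℝ) * p.2) ^ (-(1 / 2 : ℝ)) * (V ((p.1 : ℝ) * p.2 * (1 / u)) +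
              V ((p.1 : ℝ) * p.2 * (4 * Real.pi ^ 2 * u / (π.q * t) ^ 2)))) : ℝ) : ℂ) *
              ei (t * (Real.log p.2 + Real.log k - Real.log p.1 - Real.log h)) else 0

/-! ### The first moment -/

open scoped Classical in
/-- the coefficients of the product of the smooth sum of length `M` and `B` -/
noncomputable def ec (q Y : ℕ) (M : ℝ) (j : ℕ) : ℝ :=
  ∑ h ∈ (Finset.Icc 1 Y).filter (fun h => h ∣ j), fb q Y h * V ((j : ℝ) / h / M)

/-- the resulting Dirichlet series on the line `1/2` -/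
noncomputable def LD (π : PrimChar) (Y : ℕ) (M t : ℝ) : ℂ :=
  ∑' j : ℕ, co π j * (ec π.q Y M j : ℂ) * (j : ℂ) ^ (-(1 / 2 + t * I : ℂ))

/-- the mollified function on the line `1/2` -/
noncomputable def FF (π : PrimChar) (Y : ℕ) (t : ℝ) : ℂ :=
  π.L (1 / 2 + t * I) * Bf π (fb π.q Y) Y (1 / 2 + t * I)

end Pool.Agent.H88.OT
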