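import Pool.Agent.H88.OT.Defs

/-!
# One third of the sums of two sets of zeros are not zeros: exact targets
-/

set_option autoImplicit false

open Complex MeasureTheory Set

namespace Pool.Agent.H88.OT

open Pool.Agent.H23.GLH (PrimChar)
open Pool.Agent.H28.MZ (ei co Bf V W SS DS Sy PP Mol dv)
open Pool.Agent.H74.PP (ordMult)

/-! ### Part 1: clouds and the large sieve -/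

/-- (MA) masses. -/
def T_MA : Prop :=
  ∀ (A B : Cloud) (T μ ν : ℝ), 1 ≤ T → A.Sp T μ → B.Sp T ν →
    A.m ≤ (2 * T + 2) * μ ∧
    A.m * B.m ≤ (2 * T + 2) * Lam A B μ ν ∧
    ∀ δ : ℝ, 0 ≤ δ → PS A B (fun t => |t| ≤ δ) ≤ (2 * δ + 2) * Lam A B μ ν

/-- (ML) local mean values. -/
def T_ML : Prop :=
  ∃ C : ℝ, 0 < C ∧ ∀ (A : Cloud) (T μ v : ℝ), A.Sp T μ →
    (∫ z in v..(v + 1), ‖A.E z‖ ^ 2) ≤ C * (μ * A.m)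

/-- (KB) basic facts on `KK`. -/
def T_KB : Prop :=
  ∀ (A B : Cloud) (u z : ℝ), 0 < u →
    Integrable (fun ξ : ℝ => u / (1 + u * |ξ|) ^ 2 * (‖A.E (z + ξ)‖ * ‖B.E (z + ξ)‖)) ∧
    0 ≤ KK A B u z ∧ KK A B u z ≤ 2 * (A.m * B.m)

/-- (MG) global mean values. -/
def T_MG : Prop :=
  ∃ C : ℝ, 0 < C ∧ ∀ (A : Cloud) (T μ L : ℝ), A.Sp T μ → 0 ≤ L →
    Integrable (fun z : ℝ => ‖A.E z‖ ^ 2 / (1 + max 0 (|z| - L)) ^ 2) ∧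
    (∫ z : ℝ, ‖A.E z‖ ^ 2 / (1 + max 0 (|z| - L)) ^ 2) ≤ C * ((1 + L) * (μ * A.m))

/-- (FC) reduced fractions of bounded height in short intervals. -/
def T_FC : Prop :=
  ∃ C : ℝ, 0 < C ∧ ∀ (F : Finset (ℕ × ℕ)) (H u z : ℝ), 1 ≤ H → 1 ≤ u →
    (∀ p ∈ F, 1 ≤ p.1 ∧ 1 ≤ p.2 ∧ Nat.Coprime p.1 p.2 ∧ (p.1 : ℝ) * p.2 ≤ H ^ 2) →
    ∑ p ∈ F, 1 / (1 + u * |z - (Real.log p.1 - Real.log p.2)|) ^ 2 ≤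
      C * ((1 + H ^ 2 / u) * (1 + Real.log H)) / (1 + max 0 (|z| - 2 * Real.log H)) ^ 2

/-- (LS) the large sieve. -/
def T_LS : Prop :=
  ∃ C : ℝ, 0 < C ∧ ∀ (A B : Cloud) (T μ ν u H : ℝ) (F : Finset (ℕ × ℕ)), A.Sp T μ → B.Sp T ν →
    1 ≤ u → 1 ≤ H →
    (∀ p ∈ F, 1 ≤ p.1 ∧ 1 ≤ p.2 ∧ Nat.Coprime p.1 p.2 ∧ (p.1 : ℝ) * p.2 ≤ H ^ 2) →
    ∑ p ∈ F, KK A B u (Real.log p.1 - Real.log p.2) ≤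
      C * ((u + H ^ 2) * (1 + Real.log H) ^ 2) * Lam A B μ ν

/-- (DY) the large sieve with the weight `(ab)^{-1/2+δ}`. -/
def T_DY : Prop :=
  ∀ δ : ℝ, 0 ≤ δ → δ ≤ 1 / 8 → ∃ C : ℝ, 0 < C ∧ ∀ (A B : Cloud) (T μ ν u Z₁ Z₂ : ℝ)
    (F : Finset (ℕ × ℕ)), A.Sp T μ → B.Sp T ν → 1 ≤ u → 1 ≤ Z₁ → Z₁ ≤ Z₂ →
    (∀ p ∈ F, 1 ≤ p.1 ∧ 1 ≤ p.2 ∧ Nat.Coprime p.1 p.2 ∧ Z₁ ≤ (p.1 : ℝ) * p.2 ∧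
      (p.1 : ℝ) * p.2 ≤ Z₂) →
    ∑ p ∈ F, ((p.1 : ℝ) * p.2) ^ (-(1 / 2) + δ) * KK A B u (Real.log p.1 - Real.log p.2) ≤
      C * (u * Z₁ ^ (-(1 / 4) : ℝ) + Z₂ ^ (3 / 4 : ℝ)) * Lam A B μ ν

/-- (DZ) the same with small loss. -/
def T_DZ : Prop :=
  ∀ δ : ℝ, 0 < δ → δ ≤ 1 / 8 → ∃ C : ℝ, 0 < C ∧ ∀ (A B : Cloud) (T μ ν u Z₁ Z₂ : ℝ)
    (F : Finset (ℕ × ℕ)), A.Sp T μ → B.Sp T ν → 1 ≤ u → 1 ≤ Z₁ → Z₁ ≤ Z₂ →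
    (∀ p ∈ F, 1 ≤ p.1 ∧ 1 ≤ p.2 ∧ Nat.Coprime p.1 p.2 ∧ Z₁ ≤ (p.1 : ℝ) * p.2 ∧
      (p.1 : ℝ) * p.2 ≤ Z₂) →
    ∑ p ∈ F, ((p.1 : ℝ) * p.2) ^ (-(1 / 2) + δ) * KK A B u (Real.log p.1 - Real.log p.2) ≤
      C * (u * Z₁ ^ (-(1 / 2) + 2 * δ) + Z₂ ^ (1 / 2 + 2 * δ)) * Lam A B μ ν

open scoped Classical in
/-- (HI) the quadruple sum over the high frequencies. -/
def T_HI : Prop :=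
  ∀ δ : ℝ, 0 < δ → δ ≤ 1 / 8 → ∃ C : ℝ, 0 < C ∧ ∀ (A B : Cloud) (T μ ν u : ℝ) (X Y Z : ℕ),
    A.Sp T μ → B.Sp T ν → 1 ≤ u → 1 ≤ X → 1 ≤ Y → 1 ≤ Z →
    ∑ m ∈ Finset.Icc 1 X, ∑ n ∈ Finset.Icc 1 X, ∑ h ∈ Finset.Icc 1 Y, ∑ k ∈ Finset.Icc 1 Y,
      (if m * n ≤ X ∧ Z < rd m n h k then ((m : ℝ) * n * h * k) ^ (-(1 / 2) : ℝ) *
        KK A B u (Real.log n + Real.log k - Real.log m - Real.log h) else 0) ≤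
      C * ((X : ℝ) * Y ^ 2) ^ δ * (u * (Z : ℝ) ^ (-(1 / 2) + δ) + ((X : ℝ) * Y ^ 2) ^ (1 / 2 + δ)) *
        Lam A B μ ν

/-! ### Part 2: Fourier transforms -/

/-- (FS) Fourier inversion. -/
def T_FS : Prop :=
  ∀ (A B : Cloud) (φ : ℝ → ℂ) (K u y : ℝ), Continuous φ → Integrable φ → 0 < u → 0 ≤ K →
    (∀ y : ℝ, ‖∫ t : ℝ, φ t * ei (t * y)‖ ≤ K * (u / (1 + u * |y|) ^ 2)) →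
    ‖Sm A B (fun t => φ t * ei (t * y))‖ ≤ K * KK A B u y

/-- (WA) the transforms of the weights `W` and `W log`. -/
def T_WA : Prop :=
  ∀ N : ℕ, 8 ≤ N → ∃ C : ℝ, 0 < C ∧ ∀ u : ℝ, 0 < u →
    (Continuous (fun t : ℝ => ((Wt N u t : ℝ) : ℂ)) ∧
      Integrable (fun t : ℝ => ((Wt N u t : ℝ) : ℂ)) ∧
      ∀ y : ℝ, ‖∫ t : ℝ, ((Wt N u t : ℝ) : ℂ) * ei (t * y)‖ ≤ C * (u / (1 + u * |y|) ^ 2)) ∧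
    (Continuous (fun t : ℝ => ((Wl N u t : ℝ) : ℂ)) ∧
      Integrable (fun t : ℝ => ((Wl N u t : ℝ) : ℂ)) ∧
      ∀ y : ℝ, ‖∫ t : ℝ, ((Wl N u t : ℝ) : ℂ) * ei (t * y)‖ ≤ C * (u / (1 + u * |y|) ^ 2))

/-- (WV) the transform of the weight `W V(κ/t²)`. -/
def T_WV : Prop :=
  ∀ N A : ℕ, 8 ≤ N → ∃ C : ℝ, 0 < C ∧ ∀ u κ : ℝ, 0 < u → 0 < κ →
    Continuous (fun t : ℝ => ((Wv N u κ t : ℝ) : ℂ)) ∧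
    Integrable (fun t : ℝ => ((Wv N u κ t : ℝ) : ℂ)) ∧
    ∀ y : ℝ, ‖∫ t : ℝ, ((Wv N u κ t : ℝ) : ℂ) * ei (t * y)‖ ≤
      C * min 1 ((u ^ 2 / κ) ^ A) * (u / (1 + u * |y|) ^ 2)

/-! ### Part 3: Selberg's weights -/

open scoped Classical in
/-- (SB) the weights. -/
def T_SB : Prop :=
  ∀ q Y : ℕ, 1 ≤ q → 1 ≤ Y → Mol q (fb q Y) ∧
    (∀ e : ℕ, 1 ≤ e → ∑ h ∈ (Finset.Icc 1 Y).filter (fun h => e ∣ h), fb q Y h / h = fy q Y e) ∧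
    (∀ e : ℕ, 1 ≤ e → ∑ h ∈ (Finset.Icc 1 Y).filter (fun h => e ∣ h), fb q Y h / h * Real.log h =
      fy q Y e * (Real.log e - fP q Y e))

open scoped Classical in
/-- (GB) sums of `1/φ`. -/
def T_GB : Prop :=
  (∀ q Y : ℕ, 1 ≤ q → 1 ≤ Y → (Nat.totient q : ℝ) / q * Real.log Y ≤ fG q Y) ∧
  (∃ C : ℝ, 0 < C ∧ ∀ z x : ℝ, 0 < z → 1 ≤ x →
    ∑ s ∈ (Finset.Icc 1 ⌊z * x⌋₊).filter (fun s : ℕ => Squarefree s ∧ z < s),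
      1 / (Nat.totient s : ℝ) ≤ C * (1 + Real.log x)) ∧
  (∃ C : ℝ, 0 < C ∧ ∀ q Y : ℕ, 1 ≤ q → 1 ≤ Y →
    ∑ s ∈ SF q Y, la s / (Nat.totient s : ℝ) ≤ C * fG q Y)

/-- (PE) Mertens. -/
def T_PE : Prop :=
  ∀ q : ℕ, 1 ≤ q → ∃ C : ℝ, 0 < C ∧ ∀ Y e : ℕ, 1 ≤ e → e ≤ Y →
    |fP q Y e - (Real.log Y - Real.log e)| ≤ C * (1 + la e)

/-- (BM) the weights are close to the Moebius function. -/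
def T_BM : Prop :=
  ∀ q : ℕ, 1 ≤ q → ∃ C : ℝ, 0 < C ∧ ∀ Y h : ℕ, 2 ≤ Y → 1 ≤ h → Nat.Coprime h q →
    |fb q Y h - (ArithmeticFunction.moebius h : ℝ)| ≤ C * (1 + Real.log h) ^ 2 / Real.log Y

open scoped Classical in
/-- (QI) exact evaluation of `Q1` and `Q2`. -/
def T_QI : Prop :=
  ∀ q Y a b : ℕ, 1 ≤ q → 1 ≤ Y → 1 ≤ a → 1 ≤ b → Nat.Coprime a b → Nat.Coprime (a * b) q →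
    Q1 q Y a b * fG q Y ^ 2 = ∑ α ∈ a.divisors, ∑ β ∈ b.divisors,
      (ArithmeticFunction.moebius α : ℝ) * (ArithmeticFunction.moebius β : ℝ) *
        ∑ s ∈ (SF q Y).filter (fun s => s * max α β ≤ Y ∧ Nat.Coprime s (a * b)),
          1 / (Nat.totient s : ℝ) ∧
    Q2 q Y a b * fG q Y ^ 2 = ∑ α ∈ a.divisors, ∑ β ∈ b.divisors,
      (ArithmeticFunction.moebius α : ℝ) * (ArithmeticFunction.moebius β : ℝ) *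
        ∑ s ∈ (SF q Y).filter (fun s => s * max α β ≤ Y ∧ Nat.Coprime s (a * b)),
          1 / (Nat.totient s : ℝ) * (Real.log (a * b) - Real.log (α * β) - fP q Y (β * s) -
            fP q Y (α * s) - 2 * la (α * β * s))

/-- (QB) `Q1` and `Q2` off the diagonal. -/
def T_QB : Prop :=
  ∀ q : ℕ, 1 ≤ q → ∃ C : ℝ, 0 < C ∧ ∀ Y a b : ℕ, 2 ≤ Y → 1 ≤ a → 1 ≤ b → Nat.Coprime a b →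
    Nat.Coprime (a * b) q → (a, b) ≠ (1, 1) →
    |Q1 q Y a b| ≤ C * dv (a * b) * (1 + Real.log (a * b)) / Real.log Y ^ 2 ∧
    |Q2 q Y a b| ≤ C * dv (a * b) * (1 + Real.log (a * b)) ^ 2 / Real.log Y

/-- (QD) `Q1` and `Q2` on the diagonal. -/
def T_QD : Prop :=
  ∀ q : ℕ, 1 ≤ q → ∃ C : ℝ, 0 < C ∧ ∀ Y : ℕ, 2 ≤ Y →
    Q1 q Y 1 1 = 1 / fG q Y ∧ -Q2 q Y 1 1 ≤ (Real.log Y + C) / fG q Y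

/-! ### Part 4: the second moment -/

/-- (S1) the sum `Sy` at `s = 1`. -/
def T_S1 : Prop :=
  ∀ q : ℕ, 1 ≤ q → ∃ C₀ : ℝ, ∀ A : ℝ, 1 ≤ A → ∃ C : ℝ, 0 < C ∧ ∀ Y : ℝ, 0 < Y →
    |Sy q 1 Y - ((Nat.totient q : ℝ) / q * (Real.log Y / 2) + C₀)| ≤ C * Y ^ (-A)

/-- (SU) absolute convergence of the double sums. -/
def T_SU : Prop :=
  ∀ (π : PrimChar) (s ξ : ℝ), 0 ≤ s → 0 < ξ →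
    Summable fun p : ℕ × ℕ => ‖co π p.1‖ * ‖co π p.2‖ *
      |((p.1 : ℝ) * p.2) ^ (-s) * V ((p.1 : ℝ) * p.2 * ξ)|

/-- (LP) pointwise evaluation of the part of frequency `a/b`. -/
def T_LP : Prop :=
  ∀ π : PrimChar, ∃ C₀ : ℝ, ∀ A : ℕ, 1 ≤ A → ∃ C : ℝ, 0 < C ∧
    ∀ (Y Z a b : ℕ) (u t : ℝ), 1 ≤ Y → (a, b) ∈ FP π.q Z → 0 < u → 0 < t →
      ‖Rr π Y u a b t - (starRingEnd ℂ) (co π a) * co π b *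
          ((((a : ℝ) * b) ^ (-(1 / 2) : ℝ) * ((Nat.totient π.q : ℝ) / π.q *
            (Real.log (π.q * t / (2 * Real.pi)) * Q1 π.q Y a b - Q2 π.q Y a b) +
              2 * C₀ * Q1 π.q Y a b) : ℝ) : ℂ)‖ ≤
        C * (Y ^ 2 * (a * b)) * ((Y ^ 2 * (a * b) / u) ^ A + (Y ^ 2 * (a * b) * u / t ^ 2) ^ A)

/-- (LO) the part of frequency `a/b`, `ab` small. -/
def T_LO : Prop :=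
  ∀ (π : PrimChar) (θ η : ℝ), 0 < θ → 0 < η → 2 * θ + η < 1 → ∃ N₀ : ℕ, ∀ N : ℕ, N₀ ≤ N →
    ∃ C ε₀ T₀ : ℝ, 0 < C ∧ 0 < ε₀ ∧ ∀ (T u : ℝ) (A B : Cloud), T₀ ≤ T → T ^ (1 - ε₀) ≤ u →
      u ≤ T ^ (2 : ℝ) → (∀ i ∈ A.I, |A.x i| ≤ T) → (∀ j ∈ B.I, |B.x j| ≤ T) →
      (∀ p ∈ FP π.q ⌊T ^ η⌋₊,
        ‖Sm A B (fun t => ((Wt N u t : ℝ) : ℂ) * Rr π ⌊T ^ θ⌋₊ u p.1 p.2 t *
            ei (t * (Real.log p.1 - Real.log p.2)))‖ ≤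
          C * (((p.1 : ℝ) * p.2) ^ (-(1 / 2) : ℝ) * (|Q1 π.q ⌊T ^ θ⌋₊ p.1 p.2| * Real.log T +
              |Q2 π.q ⌊T ^ θ⌋₊ p.1 p.2|)) * KK A B u (Real.log p.1 - Real.log p.2) +
            T ^ (-(2 : ℝ)) * (A.m * B.m)) ∧
      (Sm A B (fun t => ((Wt N u t : ℝ) : ℂ) * Rr π ⌊T ^ θ⌋₊ u 1 1 t)).re ≤
        SR A B (Wt N u) * ((Nat.totient π.q : ℝ) / π.q *
            ((Real.log T + C) / fG π.q ⌊T ^ θ⌋₊ - Q2 π.q ⌊T ^ θ⌋₊ 1 1) +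
              C / fG π.q ⌊T ^ θ⌋₊) + T ^ (-(2 : ℝ)) * (A.m * B.m)

/-- (ID) decomposition into frequencies. -/
def T_ID : Prop :=
  ∀ (π : PrimChar) (Y Z : ℕ) (u t : ℝ), 1 ≤ Y → 0 < u → 0 < t →
    ((‖Bf π (fb π.q Y) Y (1 / 2 + t * I)‖ ^ 2 : ℝ) : ℂ) *
        (SS π (1 / 2) (1 / u) t + SS π (1 / 2) (4 * Real.pi ^ 2 * u / (π.q * t) ^ 2) t) =
      (∑ p ∈ FP π.q Z, Rr π Y u p.1 p.2 t * ei (t * (Real.log p.1 - Real.log p.2))) +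
        Hh π Y Z u t

/-- (AE) the error of the approximate functional equation. -/
def T_AE : Prop :=
  ∀ (π : PrimChar) (θ : ℝ), 0 < θ → θ < 1 / 2 → ∃ N₀ : ℕ, ∀ N : ℕ, N₀ ≤ N →
    ∃ ε₀ T₀ : ℝ, 0 < ε₀ ∧ ∀ (T u : ℝ) (A B : Cloud), T₀ ≤ T → T ^ (1 - ε₀) ≤ u →
      u ≤ T ^ (2 : ℝ) → (∀ i ∈ A.I, |A.x i| ≤ T) → (∀ j ∈ B.I, |B.x j| ≤ T) →
      ‖((SR A B (fun t => Wt N u t * ‖FF π ⌊T ^ θ⌋₊ t‖ ^ 2) : ℝ) : ℂ) -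
        Sm A B (fun t => ((Wt N u t : ℝ) : ℂ) *
          (((‖Bf π (fb π.q ⌊T ^ θ⌋₊) ⌊T ^ θ⌋₊ (1 / 2 + t * I)‖ ^ 2 : ℝ) : ℂ) *
            (SS π (1 / 2) (1 / u) t +
              SS π (1 / 2) (4 * Real.pi ^ 2 * u / (π.q * t) ^ 2) t)))‖ ≤
        T ^ (-(2 * ε₀)) * (A.m * B.m)

/-- (HB) the high frequencies. -/
def T_HB : Prop :=
  ∀ (π : PrimChar) (θ η : ℝ), 0 < θ → θ < 1 / 2 → 0 < η → ∃ N₀ : ℕ, ∀ N : ℕ, N₀ ≤ N →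
    ∀ C₁ : ℝ, 1 ≤ C₁ → ∃ ε₀ T₀ : ℝ, 0 < ε₀ ∧ ∀ (T u μ ν : ℝ) (A B : Cloud), T₀ ≤ T →
      T ^ (1 - ε₀) ≤ u → u ≤ C₁ * T → A.Sp T μ → B.Sp T ν →
      ‖Sm A B (fun t => ((Wt N u t : ℝ) : ℂ) * Hh π ⌊T ^ θ⌋₊ ⌊T ^ η⌋₊ u t)‖ ≤
        u / Real.log T * Lam A B μ ν + T ^ (-(1 : ℝ)) * (A.m * B.m)

/-- (LB) the low frequencies off the diagonal. -/
def T_LB : Prop :=
  ∀ (π : PrimChar) (θ η : ℝ), 0 < θ → 0 < η → 2 * θ + η < 1 → η ≤ 1 / 4 → ∃ N₀ : ℕ,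
    ∀ N : ℕ, N₀ ≤ N → ∀ C₁ : ℝ, 1 ≤ C₁ → ∃ C ε₀ T₀ : ℝ, 0 < C ∧ 0 < ε₀ ∧
      ∀ (T u μ ν : ℝ) (A B : Cloud), T₀ ≤ T → T ^ (1 - ε₀) ≤ u → u ≤ C₁ * T → A.Sp T μ →
        B.Sp T ν →
        ∑ p ∈ (FP π.q ⌊T ^ η⌋₊).erase (1, 1), ‖Sm A B (fun t => ((Wt N u t : ℝ) : ℂ) *
            Rr π ⌊T ^ θ⌋₊ u p.1 p.2 t * ei (t * (Real.log p.1 - Real.log p.2)))‖ ≤
          C * (u / Real.log T) * Lam A B μ ν + T ^ (-(1 : ℝ)) * (A.m * B.m)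

/-- (M2) the second moment. -/
def T_M2 : Prop :=
  ∀ (π : PrimChar) (θ ε : ℝ), 0 < θ → θ < 1 / 2 → 0 < ε → ∃ N₀ : ℕ, ∀ N : ℕ, N₀ ≤ N →
    ∀ C₁ : ℝ, 1 ≤ C₁ → ∃ C ε₀ T₀ : ℝ, 0 < C ∧ 0 < ε₀ ∧ ∀ (T u μ ν : ℝ) (A B : Cloud), T₀ ≤ T →
      T ^ (1 - ε₀) ≤ u → u ≤ C₁ * T → A.Sp T μ → B.Sp T ν →
      SR A B (fun t => Wt N u t * ‖FF π ⌊T ^ θ⌋₊ t‖ ^ 2) ≤
        (1 + 1 / θ + ε) * SR A B (Wt N u) + C * (u / Real.log T) * Lam A B μ ν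

/-! ### Part 5: the first moment -/

/-- (LD) the long smooth sum. -/
def T_LD : Prop :=
  ∀ (π : PrimChar) (θ ε : ℝ), 0 < θ → θ < 1 / 2 → 0 < ε → ε ≤ 1 / 10 → ∃ N₀ : ℕ, ∀ N : ℕ,
    N₀ ≤ N → ∃ ε₀ T₀ : ℝ, 0 < ε₀ ∧ ∀ (T u : ℝ) (A B : Cloud), T₀ ≤ T → T ^ (1 - ε₀) ≤ u →
      u ≤ T ^ (2 : ℝ) → (∀ i ∈ A.I, |A.x i| ≤ T) → (∀ j ∈ B.I, |B.x j| ≤ T) →
      ‖Sm A B (fun t => ((Wt N u t : ℝ) : ℂ) * FF π ⌊T ^ θ⌋₊ t) -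
        Sm A B (fun t => ((Wt N u t : ℝ) : ℂ) * LD π ⌊T ^ θ⌋₊ (T ^ (1 + ε)) t)‖ ≤
          T ^ (-(1 : ℝ)) * (A.m * B.m)

/-- (EB) bounds for the coefficients. -/
def T_EB : Prop :=
  ∀ q : ℕ, 1 ≤ q →
    (∀ (Y : ℕ) (M : ℝ) (j : ℕ), 1 ≤ Y → 0 < M → 1 ≤ j → |ec q Y M j| ≤ dv j) ∧
    (∀ A : ℕ, ∃ C : ℝ, 0 < C ∧ ∀ (Y : ℕ) (M : ℝ) (j : ℕ), 1 ≤ Y → 0 < M → 1 ≤ j →
      |ec q Y M j| ≤ C * dv j * (M * Y / j) ^ A) ∧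
    ∃ C : ℝ, 0 < C ∧ ∀ (Y : ℕ) (M : ℝ), 2 ≤ Y → 1 ≤ M →
      |ec q Y M 1 - 1| ≤ C / M ∧
      ∀ j : ℕ, 2 ≤ j → Nat.Coprime j q →
        |ec q Y M j| ≤ C * dv j * ((1 + Real.log j) ^ 2 / Real.log Y + j / M)

/-- (M1) the first moment. -/
def T_M1 : Prop :=
  ∀ (π : PrimChar) (θ : ℝ), 0 < θ → θ < 1 / 2 → ∃ N₀ : ℕ, ∀ N : ℕ, N₀ ≤ N →
    ∀ C₁ : ℝ, 1 ≤ C₁ → ∃ C ε₀ T₀ : ℝ, 0 < C ∧ 0 < ε₀ ∧ ∀ (T u μ ν : ℝ) (A B : Cloud), T₀ ≤ T →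
      T ^ (1 - ε₀) ≤ u → u ≤ C₁ * T → A.Sp T μ → B.Sp T ν →
      ‖Sm A B (fun t => ((Wt N u t : ℝ) : ℂ) * FF π ⌊T ^ θ⌋₊ t) -
        ((SR A B (Wt N u) : ℝ) : ℂ)‖ ≤ C * (u / Real.log T) * Lam A B μ ν

/-! ### Part 6: assembly -/

/-- (PH) the integral of the Gamma weight over `u`. -/
def T_PH : Prop :=
  (∀ (N : ℕ) (t u₀ u₁ : ℝ), 1 ≤ N → 0 < t → 0 < u₀ → u₀ ≤ u₁ →
    0 ≤ (∫ u in u₀..u₁, W N u t / u) ∧ (∫ u in u₀..u₁, W N u t / u) ≤ 1) ∧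
  ∀ (N : ℕ) (ε : ℝ), 1 ≤ N → 0 < ε → ∃ K : ℝ, 1 ≤ K ∧ ∀ t u₀ u₁ : ℝ, 0 < u₀ → K * u₀ ≤ t →
    K * t ≤ u₁ → 1 - ε ≤ ∫ u in u₀..u₁, W N u t / u

/-- (CP) the pairs with positive sum. -/
def T_CP : Prop :=
  ∀ (π : PrimChar) (ε : ℝ), 0 < ε → ∃ c T₀ : ℝ, 0 < c ∧ ∀ (T μ ν : ℝ) (A B : Cloud), T₀ ≤ T →
    A.Sp T μ → B.Sp T ν → T ^ 2 * (μ * ν) ≤ c * Real.log T ^ 2 * (A.m * B.m) →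
    (1 / 3 - ε) * PS A B (fun t => 0 < t) - ε * (A.m * B.m) ≤
      PS A B (fun t => 0 < t ∧ π.L (1 / 2 + t * I) ≠ 0)

/-- (CO) the core theorem: one third of the sums are not zeros. -/
def T_CO : Prop :=
  ∀ (π : PrimChar) (ε : ℝ), 0 < ε → ∃ c T₀ : ℝ, 0 < c ∧ ∀ (T μ ν : ℝ) (A B : Cloud), T₀ ≤ T →
    A.Sp T μ → B.Sp T ν → T ^ 2 * (μ * ν) ≤ c * Real.log T ^ 2 * (A.m * B.m) →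
    (1 / 3 - ε) * (A.m * B.m) ≤ PS A B (fun t => π.L (1 / 2 + t * I) ≠ 0)

open scoped Classical in
/-- (ZC) the ordinates of zeros are not concentrated. -/
def T_ZC : Prop :=
  ∀ (ψ : PrimChar) (C : ℝ), 1 ≤ C → ∃ K : ℝ, 0 < K ∧ ∀ (T v : ℝ) (S : Finset ℝ), 2 ≤ T →
    (∀ y ∈ S, 0 < y ∧ y ≤ T) →
    ∑ y ∈ S.filter (fun y => v ≤ y ∧ y ≤ v + C), (ordMult ψ y : ℝ) ≤ K * Real.log T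

open scoped Classical in
/-- (FI) sums of two zeros. -/
def T_FI : Prop :=
  ∀ (χ ψ₁ ψ₂ : PrimChar) (C ε : ℝ), 1 ≤ C → 0 < ε → ∃ M T₀ : ℝ, ∀ (T α₁ α₂ τ : ℝ)
    (S₁ S₂ : Finset ℝ) (w₁ w₂ : ℝ → ℝ), T₀ ≤ T → 1 / C ≤ |α₁| → |α₁| ≤ C → 1 / C ≤ |α₂| →
    |α₂| ≤ C → |τ| ≤ C * T →
    (∀ y ∈ S₁, 0 < y ∧ y ≤ T ∧ 0 ≤ w₁ y ∧ w₁ y ≤ ordMult ψ₁ y) →
    (∀ y ∈ S₂, 0 < y ∧ y ≤ T ∧ 0 ≤ w₂ y ∧ w₂ y ≤ ordMult ψ₂ y) →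
    M * T ^ 2 ≤ (∑ y ∈ S₁, w₁ y) * ∑ y ∈ S₂, w₂ y →
    (1 / 3 - ε) * ((∑ y ∈ S₁, w₁ y) * ∑ y ∈ S₂, w₂ y) ≤
      ∑ y ∈ S₁, ∑ z ∈ S₂,
        if χ.L (1 / 2 + ((α₁ * y + α₂ * z + τ : ℝ) : ℂ) * I) ≠ 0 then w₁ y * w₂ z else 0

open scoped Classical in
/-- (FK) relations with at least three ordinates. -/
def T_FK : Prop :=
  ∀ (χ : PrimChar) (k : ℕ) (ψ : Fin (k + 2) → PrimChar) (C ε : ℝ), 1 ≤ C → 0 < ε →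
    ∃ M T₀ : ℝ, ∀ (T τ : ℝ) (α : Fin (k + 2) → ℝ) (S : Fin (k + 2) → Finset ℝ)
      (w : Fin (k + 2) → ℝ → ℝ), T₀ ≤ T → (∀ j, 1 / C ≤ |α j| ∧ |α j| ≤ C) → |τ| ≤ C * T →
      (∀ j, ∀ y ∈ S j, 0 < y ∧ y ≤ T ∧ 0 ≤ w j y ∧ w j y ≤ ordMult (ψ j) y) →
      M * T ^ 2 ≤ (∑ y ∈ S 0, w 0 y) * ∑ y ∈ S 1, w 1 y →
      (1 / 3 - ε) * ∏ j, ∑ y ∈ S j, w j y ≤
        ∑ y ∈ Fintype.piFinset S,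
          if χ.L (1 / 2 + ((∑ j, α j * y j + τ : ℝ) : ℂ) * I) ≠ 0 then ∏ j, w j (y j) else 0

end Pool.Agent.H88.OT
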